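import Mathlib

set_option autoImplicit false
open Filter Topology
open scoped NNReal BoundedContinuousFunction

namespace Pool.Agent.LipPlane

/-- A nonnegative finitely additive set function of total mass at most one. -/
structure IsCharge (m : Set ℕ → ℝ) : Prop where
  nonneg : ∀ A, 0 ≤ m A
  le_one : m Set.univ ≤ 1
  add : ∀ A B, Disjoint A B → m (A ∪ B) = m A + m B

namespace IsCharge

variable {m : Set ℕ → ℝ} (hm : IsCharge m)
include hm

theorem empty : m ∅ = 0 := by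
  have h := hm.add ∅ ∅ (by simp)
  rw [Set.union_empty] at h
  linarith

theorem mono {A B : Set ℕ} (h : A ⊆ B) : m A ≤ m B := by
  have h1 := hm.add A (B \ A) Set.disjoint_sdiff_right
  rw [Set.union_sdiff_cancel h] at h1
  have := hm.nonneg (B \ A)
  linarith

theorem union_le (A B : Set ℕ) : m (A ∪ B) ≤ m A + m B := by
  have h1 := hm.add A (B \ A) Set.disjoint_sdiff_right
  rw [Set.union_sdiff_self] at h1
  have := hm.mono (Set.sdiff_subset : B \ A ⊆ B)
  linarith

theorem biUnion_le (s : Finset ℕ) (A : ℕ → Set ℕ) : m (⋃ i ∈ s, A i) ≤ ∑ i ∈ s, m (A i) := by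
  classical
  induction s using Finset.induction_on with
  | empty => simp [hm.empty]
  | insert a s ha ih =>
    rw [Finset.sum_insert ha, Finset.set_biUnion_insert]
    exact (hm.union_le _ _).trans (by linarith)

theorem sum_disjoint (s : Finset ℕ) (A : ℕ → Set ℕ) (hd : ∀ i j, i ≠ j → Disjoint (A i) (A j)) :
    ∑ i ∈ s, m (A i) = m (⋃ i ∈ s, A i) := by
  classical
  induction s using Finset.induction_on with
  | empty => simp [hm.empty]
  | insert a s ha ih =>
    rw [Finset.sum_insert ha, Finset.set_biUnion_insert, hm.add, ih]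
    rw [Set.disjoint_iUnion₂_right]
    intro i hi
    exact hd a i (fun h => ha (h ▸ hi))

theorem sum_le (s : Finset ℕ) (A : ℕ → Set ℕ) (hd : ∀ i j, i ≠ j → Disjoint (A i) (A j)) :
    ∑ i ∈ s, m (A i) ≤ 1 := by
  rw [hm.sum_disjoint s A hd]
  exact (hm.mono (Set.subset_univ _)).trans hm.le_one

end IsCharge

/-- Rosenthal's lemma. -/
theorem rosenthal_aux (ε : ℝ) (n : ℕ) :
    ∀ (m : ℕ → Set ℕ → ℝ) (B : ℕ → Set ℕ), (∀ i, IsCharge (m i)) →
      (∀ i j, i ≠ j → Disjoint (B i) (B j)) → (∀ i, m i (⋃ j, B j) < n * ε) →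
      ∃ s : ℕ → ℕ, Function.Injective s ∧
        ∀ i, m (s i) (⋃ j ∈ {j : ℕ | j ≠ i}, B (s j)) < ε := by
  induction n with
  | zero =>
    intro m B hm _ h
    have h1 := h 0
    have h2 := (hm 0).nonneg (⋃ j, B j)
    simp only [Nat.cast_zero, zero_mul] at h1
    linarith
  | succ n ih =>
    intro m B hm hB h
    by_cases hc : ∃ p : ℕ, ∀ q : ℕ, m (Nat.pair p q)
        (⋃ r ∈ {r : ℕ | r ≠ q}, B (Nat.pair p r)) < ε
    · obtain ⟨p, hp⟩ := hc
      refine ⟨fun q => Nat.pair p q, ?_, hp⟩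
      intro a b hab
      exact (Nat.pair_eq_pair.mp hab).2
    · push Not at hc
      choose q hq using hc
      let t : ℕ → ℕ := fun p => Nat.pair p (q p)
      have ht : Function.Injective t := fun a b hab => (Nat.pair_eq_pair.mp hab).1
      obtain ⟨s, hs1, hs2⟩ := ih (fun i => m (t i)) (fun i => B (t i)) (fun i => hm _)
        (fun i j hij => hB _ _ (fun h => hij (ht h))) (by
          intro i
          have h1 := h (t i)
          have h2 := hq i
          have hd : Disjoint (⋃ j, B (t j)) (⋃ r ∈ {r : ℕ | r ≠ q i}, B (Nat.pair i r)) := by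
            rw [Set.disjoint_iUnion_left]
            intro j
            rw [Set.disjoint_iUnion₂_right]
            intro r hr
            apply hB
            intro heq
            obtain ⟨h3, h4⟩ := Nat.pair_eq_pair.mp heq
            subst h3
            exact hr h4.symm
          have h3 := (hm (t i)).add _ _ hd
          have h4 : m (t i) ((⋃ j, B (t j)) ∪ ⋃ r ∈ {r : ℕ | r ≠ q i}, B (Nat.pair i r)) ≤
              m (t i) (⋃ j, B j) := by
            apply (hm (t i)).mono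
            apply Set.union_subset
            · exact Set.iUnion_subset fun j => Set.subset_iUnion B (t j)
            · exact Set.iUnion₂_subset fun r _ => Set.subset_iUnion B (Nat.pair i r)
          have h5 : ((n + 1 : ℕ) : ℝ) * ε = n * ε + ε := by push_cast; ring
          rw [h5] at h1
          show m (t i) (⋃ j, B (t j)) < n * ε
          have h6 : ε ≤ m (t i) (⋃ r ∈ {r : ℕ | r ≠ q i}, B (Nat.pair i r)) := h2
          linarith)
      exact ⟨t ∘ s, ht.comp hs1, hs2⟩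

theorem rosenthal (ε : ℝ) (hε : 0 < ε) (m : ℕ → Set ℕ → ℝ) (B : ℕ → Set ℕ)
    (hm : ∀ i, IsCharge (m i)) (hB : ∀ i j, i ≠ j → Disjoint (B i) (B j)) :
    ∃ s : ℕ → ℕ, Function.Injective s ∧
      ∀ i, m (s i) (⋃ j ∈ {j : ℕ | j ≠ i}, B (s j)) < ε := by
  obtain ⟨n, hn⟩ := exists_nat_gt (1 / ε)
  apply rosenthal_aux ε n m B hm hB
  intro i
  have h1 := ((hm i).mono (Set.subset_univ (⋃ j, B j))).trans (hm i).le_one
  rw [div_lt_iff₀ hε] at hn
  linarith

/-- Uniform exhaustivity. -/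
def UExh (m : ℕ → Set ℕ → ℝ) : Prop :=
  ∀ B : ℕ → Set ℕ, (∀ i j, i ≠ j → Disjoint (B i) (B j)) → ∀ ε : ℝ, 0 < ε →
    ∃ i, ∀ k, m k (B i) < ε

theorem exh_mono {m : ℕ → Set ℕ → ℝ} (hu : UExh m) (S : ℕ → Set ℕ) (hS : Monotone S)
    (ε : ℝ) (hε : 0 < ε) : ∃ L, ∀ l, L ≤ l → ∀ k, m k (S l \ S L) < ε := by
  by_contra hcon
  push Not at hcon
  choose l hl k hk using hcon
  let a : ℕ → ℕ := fun i => l^[i] 0
  have ha : ∀ i, a (i + 1) = l (a i) := fun i => Function.iterate_succ_apply' l i 0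
  have hamono : Monotone a := monotone_nat_of_le_succ fun i => by
    rw [ha]
    exact hl _
  obtain ⟨i, hi⟩ := hu (fun i => S (a (i + 1)) \ S (a i)) (by
    have key : ∀ i j, i < j → Disjoint (S (a (i + 1)) \ S (a i)) (S (a (j + 1)) \ S (a j)) := by
      intro i j hij
      rw [Set.disjoint_left]
      intro x hx hx2
      exact hx2.2 (hS (hamono (by omega : i + 1 ≤ j)) hx.1)
    intro i j hij
    rcases lt_or_gt_of_ne hij with h | h
    · exact key i j h
    · exact (key j i h).symm) ε hε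
  have h1 := hi (k (a i))
  have h2 := hk (a i)
  simp only [ha] at h1
  linarith

theorem exh_anti {m : ℕ → Set ℕ → ℝ} (hu : UExh m) (V : ℕ → Set ℕ) (hV : Antitone V)
    (ε : ℝ) (hε : 0 < ε) : ∃ L, ∀ l, L ≤ l → ∀ k, m k (V L \ V l) < ε := by
  obtain ⟨L, hL⟩ := exh_mono hu (fun n => (V n)ᶜ)
    (fun a b hab => Set.compl_subset_compl.mpr (hV hab)) ε hε
  refine ⟨L, fun l hl k => ?_⟩
  have h1 := hL l hl k
  have h2 : (V l)ᶜ \ (V L)ᶜ = V L \ V l := by
    ext x
    simp only [Set.mem_sdiff, Set.mem_compl_iff, not_not]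
    tauto
  rw [h2] at h1
  exact h1

/-- Uniform exhaustivity and absolute continuity of each charge give uniform absolute
continuity. -/
theorem uac {m : ℕ → Set ℕ → ℝ} (hm : ∀ k, IsCharge (m k)) (hu : UExh m) {lam : Set ℕ → ℝ}
    (hlam : IsCharge lam) (hdom : ∀ k, ∃ C : ℝ, ∀ A, m k A ≤ C * lam A) (ε : ℝ) (hε : 0 < ε) :
    ∃ δ : ℝ, 0 < δ ∧ ∀ A, lam A < δ → ∀ k, m k A < ε := by
  by_contra hcon
  push Not at hcon
  choose A hA k hk using fun n : ℕ => hcon ((1 / 2 : ℝ) ^ n) (by positivity)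
  let S : ℕ → ℕ → Set ℕ := fun n l => ⋃ j ∈ Finset.Ico n l, A j
  have hSmono : ∀ n, Monotone (S n) := by
    intro n a b hab
    exact Set.biUnion_subset_biUnion_left (fun j hj => Finset.Ico_subset_Ico le_rfl hab hj)
  choose L hL using fun n : ℕ => exh_mono hu (S n) (hSmono n) (ε * (1 / 2 : ℝ) ^ (n + 3))
    (by positivity)
  let T : ℕ → Set ℕ := fun n => S n (L n)
  have hlamT : ∀ n, lam (T n) ≤ 2 * (1 / 2 : ℝ) ^ n := by
    intro n
    have h1 := hlam.biUnion_le (Finset.Ico n (L n)) A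
    have h2 : ∑ i ∈ Finset.Ico n (L n), lam (A i) ≤ ∑ i ∈ Finset.Ico n (L n), (1 / 2 : ℝ) ^ i :=
      Finset.sum_le_sum fun i _ => (hA i).le
    have h3 : ∑ i ∈ Finset.Ico n (L n), (1 / 2 : ℝ) ^ i ≤ 2 * (1 / 2 : ℝ) ^ n := by
      have h4 := geom_sum_Ico_le_of_lt_one (m := n) (n := L n) (x := (1 / 2 : ℝ))
        (by norm_num) (by norm_num)
      refine h4.trans (le_of_eq ?_)
      ring
    exact h1.trans (h2.trans h3)
  let V : ℕ → Set ℕ := fun n => ⋂ j ∈ Finset.range (n + 1), T j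
  have hVanti : Antitone V := by
    intro a b hab
    exact Set.biInter_subset_biInter_left
      (fun j hj => Finset.range_mono (by omega) hj)
  have hVT : ∀ n, V n ⊆ T n := fun n => Set.biInter_subset_of_mem (by simp)
  have hAV : ∀ n, m (k n) (A n \ V n) ≤ ε / 4 := by
    intro n
    have h1 : A n \ V n ⊆ ⋃ j ∈ Finset.range (n + 1), (A n \ T j) := by
      intro x hx
      have h2 : ¬ ∀ j ∈ Finset.range (n + 1), x ∈ T j := by
        intro h3
        exact hx.2 (Set.mem_iInter₂.mpr h3)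
      push Not at h2
      obtain ⟨j, hj, hxj⟩ := h2
      exact Set.mem_iUnion₂.mpr ⟨j, hj, hx.1, hxj⟩
    have h2 : ∀ j ∈ Finset.range (n + 1), m (k n) (A n \ T j) ≤ ε * (1 / 2 : ℝ) ^ (j + 3) := by
      intro j hj
      have hj' : j ≤ n := by
        have := Finset.mem_range.mp hj
        omega
      have h3 : A n \ T j ⊆ S j (max (n + 1) (L j)) \ S j (L j) := by
        intro x hx
        refine ⟨?_, hx.2⟩
        exact Set.mem_iUnion₂.mpr ⟨n, Finset.mem_Ico.mpr ⟨hj', by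
          have := le_max_left (n + 1) (L j)
          omega⟩, hx.1⟩
      exact ((hm (k n)).mono h3).trans (hL j _ (le_max_right _ _) (k n)).le
    have h3 := ((hm (k n)).mono h1).trans (((hm (k n)).biUnion_le _ _).trans
      (Finset.sum_le_sum h2))
    refine h3.trans ?_
    rw [← Finset.mul_sum]
    have h4 : ∑ i ∈ Finset.range (n + 1), (1 / 2 : ℝ) ^ (i + 3) ≤ 1 / 4 := by
      have h5 : ∑ i ∈ Finset.range (n + 1), (1 / 2 : ℝ) ^ (i + 3) =
          (1 / 8 : ℝ) * ∑ i ∈ Finset.range (n + 1), (1 / 2 : ℝ) ^ i := by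
        rw [Finset.mul_sum]
        apply Finset.sum_congr rfl
        intro i _
        rw [pow_add]
        norm_num
        ring
      have h6 := geom_sum_Ico_le_of_lt_one (m := 0) (n := n + 1) (x := (1 / 2 : ℝ))
        (by norm_num) (by norm_num)
      rw [← Finset.range_eq_Ico] at h6
      rw [h5]
      norm_num at h6 ⊢
      linarith
    have := mul_le_mul_of_nonneg_left h4 hε.le
    linarith
  obtain ⟨n, hn⟩ := exh_anti hu V hVanti (ε / 4) (by positivity)
  obtain ⟨C, hC⟩ := hdom (k n)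
  have hlim : Tendsto (fun l : ℕ => |C| * (2 * (1 / 2 : ℝ) ^ l)) atTop (𝓝 (|C| * (2 * 0))) := by
    apply Tendsto.const_mul
    apply Tendsto.const_mul
    exact tendsto_pow_atTop_nhds_zero_of_lt_one (by norm_num) (by norm_num)
  rw [mul_zero, mul_zero] at hlim
  obtain ⟨l, hl1, hl2⟩ := ((hlim.eventually_lt_const (by positivity : (0 : ℝ) < ε / 4)).and
    (eventually_ge_atTop n)).exists
  have h1 := hn l hl2 (k n)
  have h2 : m (k n) (V l) ≤ |C| * (2 * (1 / 2 : ℝ) ^ l) := by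
    refine (hC (V l)).trans ?_
    have h3 : C * lam (V l) ≤ |C| * lam (V l) :=
      mul_le_mul_of_nonneg_right (le_abs_self C) (hlam.nonneg _)
    refine h3.trans ?_
    apply mul_le_mul_of_nonneg_left _ (abs_nonneg _)
    exact (hlam.mono (hVT l)).trans (hlamT l)
  have h3 : m (k n) (A n) ≤ m (k n) (A n \ V n) + (m (k n) (V n \ V l) + m (k n) (V l)) := by
    have h4 : A n ⊆ (A n \ V n) ∪ ((V n \ V l) ∪ V l) := by
      intro x hx
      by_cases hx1 : x ∈ V n
      · by_cases hx2 : x ∈ V l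
        · exact Or.inr (Or.inr hx2)
        · exact Or.inr (Or.inl ⟨hx1, hx2⟩)
      · exact Or.inl ⟨hx, hx1⟩
    have h5 := (hm (k n)).union_le (A n \ V n) ((V n \ V l) ∪ V l)
    have h6 := (hm (k n)).union_le (V n \ V l) (V l)
    have h7 := (hm (k n)).mono h4
    linarith
  have h4 := hk n
  have h5 := hAV n
  linarith


section tv

/-- The supremum of `ν` on the order interval `[-h, h]`. -/
noncomputable def tvP (ν : (ℕ →ᵇ ℝ) →L[ℝ] ℝ) (h : ℕ →ᵇ ℝ) : ℝ :=
  sSup {t : ℝ | ∃ g : ℕ →ᵇ ℝ, (∀ N, |g N| ≤ h N) ∧ t = ν g}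

variable (ν : (ℕ →ᵇ ℝ) →L[ℝ] ℝ)

theorem norm_le_of_abs_le {g h : ℕ →ᵇ ℝ} (hg : ∀ N, |g N| ≤ h N) : ‖g‖ ≤ ‖h‖ := by
  rw [BoundedContinuousFunction.norm_le (norm_nonneg _)]
  intro N
  rw [Real.norm_eq_abs]
  refine (hg N).trans ((le_abs_self _).trans ?_)
  rw [← Real.norm_eq_abs]
  exact h.norm_coe_le_norm N

theorem tvP_bdd (h : ℕ →ᵇ ℝ) :
    BddAbove {t : ℝ | ∃ g : ℕ →ᵇ ℝ, (∀ N, |g N| ≤ h N) ∧ t = ν g} := by
  refine ⟨‖ν‖ * ‖h‖, ?_⟩
  rintro _ ⟨g, hg, rfl⟩
  refine (le_abs_self _).trans ((ν.le_opNorm g).trans ?_)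
  exact mul_le_mul_of_nonneg_left (norm_le_of_abs_le hg) (norm_nonneg _)

theorem le_tvP {g h : ℕ →ᵇ ℝ} (hg : ∀ N, |g N| ≤ h N) : ν g ≤ tvP ν h :=
  le_csSup (tvP_bdd ν h) ⟨g, hg, rfl⟩

theorem abs_le_tvP {g h : ℕ →ᵇ ℝ} (hg : ∀ N, |g N| ≤ h N) : |ν g| ≤ tvP ν h := by
  rw [abs_le]
  have h1 := le_tvP ν hg
  have h2 : ν (-g) ≤ tvP ν h := le_tvP ν (fun N => by
    rw [BoundedContinuousFunction.coe_neg, Pi.neg_apply, abs_neg]
    exact hg N)
  rw [map_neg] at h2
  constructor <;> linarith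

theorem tvP_nonneg {h : ℕ →ᵇ ℝ} (hh : ∀ N, 0 ≤ h N) : 0 ≤ tvP ν h := by
  have h1 : ν 0 ≤ tvP ν h := le_tvP ν (fun N => by simpa using hh N)
  rwa [map_zero] at h1

theorem tvP_le {h : ℕ →ᵇ ℝ} (hh : ∀ N, 0 ≤ h N) (b : ℝ)
    (hb : ∀ g : ℕ →ᵇ ℝ, (∀ N, |g N| ≤ h N) → ν g ≤ b) : tvP ν h ≤ b := by
  apply csSup_le
  · exact ⟨ν 0, 0, fun N => by simpa using hh N, rfl⟩
  · rintro _ ⟨g, hg, rfl⟩
    exact hb g hg

theorem tvP_near {h : ℕ →ᵇ ℝ} (hh : ∀ N, 0 ≤ h N) (ε : ℝ) (hε : 0 < ε) :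
    ∃ g : ℕ →ᵇ ℝ, (∀ N, |g N| ≤ h N) ∧ tvP ν h - ε < ν g := by
  by_contra hcon
  push Not at hcon
  have h1 := tvP_le ν hh (tvP ν h - ε) hcon
  linarith

theorem tvP_add {h k : ℕ →ᵇ ℝ} (hh : ∀ N, 0 ≤ h N) (hk : ∀ N, 0 ≤ k N) :
    tvP ν (h + k) = tvP ν h + tvP ν k := by
  have hhk : ∀ N, 0 ≤ (h + k) N := fun N => by
    rw [BoundedContinuousFunction.coe_add, Pi.add_apply]
    exact add_nonneg (hh N) (hk N)
  apply le_antisymm
  · apply tvP_le ν hhk
    intro g hg
    let g1 : ℕ →ᵇ ℝ := BoundedContinuousFunction.ofNormedAddCommGroupDiscrete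
      (fun N => max (-(h N)) (min (g N) (h N))) ‖h‖ (fun N => by
        have h1 : ‖h N‖ ≤ ‖h‖ := h.norm_coe_le_norm N
        rw [Real.norm_eq_abs] at h1 ⊢
        refine le_trans ?_ h1
        rw [abs_of_nonneg (hh N), abs_le]
        have := hh N
        constructor
        · exact le_max_left _ _
        · exact max_le (by linarith) (min_le_right _ _))
    have hg1 : ∀ N, g1 N = max (-(h N)) (min (g N) (h N)) := fun N => rfl
    have h1 : ν g1 ≤ tvP ν h := by
      apply le_tvP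
      intro N
      rw [hg1, abs_le]
      have := hh N
      constructor
      · exact le_max_left _ _
      · exact max_le (by linarith) (min_le_right _ _)
    have h2 : ν (g - g1) ≤ tvP ν k := by
      apply le_tvP
      intro N
      rw [BoundedContinuousFunction.coe_sub, Pi.sub_apply, hg1]
      have h3 := hg N
      rw [BoundedContinuousFunction.coe_add, Pi.add_apply, abs_le] at h3
      have h4 := hh N
      have h5 := hk N
      rw [abs_le]
      rcases le_total (g N) (h N) with h6 | h6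
      · rw [min_eq_left h6]
        rcases le_total (-(h N)) (g N) with h7 | h7
        · rw [max_eq_right h7]
          constructor <;> linarith
        · rw [max_eq_left h7]
          constructor <;> linarith
      · rw [min_eq_right h6, max_eq_right (by linarith)]
        constructor <;> linarith
    rw [map_sub] at h2
    linarith
  · apply le_of_forall_pos_le_add
    intro ε hε
    obtain ⟨g1, hg1, h1⟩ := tvP_near ν hh (ε / 2) (by positivity)
    obtain ⟨g2, hg2, h2⟩ := tvP_near ν hk (ε / 2) (by positivity)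
    have h3 : ν (g1 + g2) ≤ tvP ν (h + k) := by
      apply le_tvP
      intro N
      rw [BoundedContinuousFunction.coe_add, Pi.add_apply, BoundedContinuousFunction.coe_add,
        Pi.add_apply]
      exact (abs_add_le _ _).trans (add_le_add (hg1 N) (hg2 N))
    rw [map_add] at h3
    linarith

theorem tvP_smul {h : ℕ →ᵇ ℝ} (hh : ∀ N, 0 ≤ h N) (c : ℝ) (hc : 0 ≤ c) :
    tvP ν (c • h) = c * tvP ν h := by
  rcases hc.eq_or_lt with rfl | hc
  · rw [zero_smul, zero_mul]
    apply le_antisymm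
    · apply tvP_le ν (fun N => by simp)
      intro g hg
      have h1 : g = 0 := by
        ext N
        have := hg N
        rw [BoundedContinuousFunction.coe_zero, Pi.zero_apply] at this ⊢
        exact abs_nonpos_iff.mp this
      rw [h1, map_zero]
    · exact tvP_nonneg ν (fun N => by simp)
  · have key : ∀ (c : ℝ) (h : ℕ →ᵇ ℝ), 0 < c → (∀ N, 0 ≤ h N) → tvP ν (c • h) ≤ c * tvP ν h := by
      intro c h hc hh
      apply tvP_le ν (fun N => by
        show 0 ≤ c * h N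
        exact mul_nonneg hc.le (hh N))
      intro g hg
      have h1 : ν (c⁻¹ • g) ≤ tvP ν h := by
        apply le_tvP
        intro N
        have h2 : |g N| ≤ c * h N := hg N
        show |c⁻¹ * g N| ≤ h N
        rw [abs_mul, abs_of_pos (inv_pos.mpr hc), inv_mul_le_iff₀ hc]
        exact h2
      rw [map_smul, smul_eq_mul, inv_mul_le_iff₀ hc] at h1
      exact h1
    apply le_antisymm (key c h hc hh)
    have h1 := key c⁻¹ (c • h) (inv_pos.mpr hc) (fun N => by
        show 0 ≤ c * h N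
        exact mul_nonneg hc.le (hh N))
    rw [smul_smul, inv_mul_cancel₀ hc.ne', one_smul] at h1
    rw [← le_inv_mul_iff₀ hc]
    exact h1

/-- The constant sequence one. -/
noncomputable def oneSeq : ℕ →ᵇ ℝ := BoundedContinuousFunction.const ℕ 1

theorem oneSeq_apply (N : ℕ) : oneSeq N = 1 := rfl

theorem add_norm_nonneg (g : ℕ →ᵇ ℝ) (c : ℝ) (hc : ‖g‖ ≤ c) (N : ℕ) :
    0 ≤ (g + c • oneSeq) N := by
  have h1 := g.norm_coe_le_norm N
  rw [Real.norm_eq_abs] at h1
  have h2 := neg_abs_le (g N)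
  show 0 ≤ g N + c * 1
  linarith

theorem tvP_indep (g : ℕ →ᵇ ℝ) (c : ℝ) (hc : ‖g‖ ≤ c) :
    tvP ν (g + c • oneSeq) - c * tvP ν oneSeq =
      tvP ν (g + ‖g‖ • oneSeq) - ‖g‖ * tvP ν oneSeq := by
  have h1 : g + c • oneSeq = (g + ‖g‖ • oneSeq) + (c - ‖g‖) • oneSeq := by
    ext N
    show g N + c * 1 = g N + ‖g‖ * 1 + (c - ‖g‖) * 1
    ring
  have h2 : ∀ N, (0 : ℝ) ≤ oneSeq N := fun N => by
    rw [oneSeq_apply]
    exact zero_le_one
  rw [h1, tvP_add ν (add_norm_nonneg g _ le_rfl) (fun N => by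
    show 0 ≤ (c - ‖g‖) * 1
    linarith), tvP_smul ν h2 _ (by linarith)]
  ring

/-- The total variation of a functional on bounded sequences. -/
noncomputable def tv : (ℕ →ᵇ ℝ) →L[ℝ] ℝ :=
  LinearMap.mkContinuous
    { toFun := fun g => tvP ν (g + ‖g‖ • oneSeq) - ‖g‖ * tvP ν oneSeq
      map_add' := by
        intro a b
        rw [← tvP_indep ν (a + b) (‖a‖ + ‖b‖) (norm_add_le _ _)]
        have h1 : a + b + (‖a‖ + ‖b‖) • oneSeq = (a + ‖a‖ • oneSeq) + (b + ‖b‖ • oneSeq) := by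
          ext N
          show a N + b N + (‖a‖ + ‖b‖) * 1 = (a N + ‖a‖ * 1) + (b N + ‖b‖ * 1)
          ring
        rw [h1, tvP_add ν (add_norm_nonneg a _ le_rfl) (add_norm_nonneg b _ le_rfl)]
        ring
      map_smul' := by
        intro c a
        rw [RingHom.id_apply, smul_eq_mul]
        have h2 : ∀ N, (0 : ℝ) ≤ oneSeq N := fun N => by
          rw [oneSeq_apply]
          exact zero_le_one
        have hpos : ∀ (c : ℝ) (a : ℕ →ᵇ ℝ), 0 ≤ c →
            tvP ν (c • a + ‖c • a‖ • oneSeq) - ‖c • a‖ * tvP ν oneSeq =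
              c * (tvP ν (a + ‖a‖ • oneSeq) - ‖a‖ * tvP ν oneSeq) := by
          intro c a hc
          have h1 : ‖c • a‖ = c * ‖a‖ := by
            rw [norm_smul, Real.norm_eq_abs, abs_of_nonneg hc]
          have h3 : c • a + (c * ‖a‖) • oneSeq = c • (a + ‖a‖ • oneSeq) := by
            rw [smul_add, smul_smul]
          rw [h1, h3, tvP_smul ν (add_norm_nonneg a _ le_rfl) c hc]
          ring
        have hneg : ∀ a : ℕ →ᵇ ℝ,
            tvP ν (-a + ‖-a‖ • oneSeq) - ‖-a‖ * tvP ν oneSeq =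
              -(tvP ν (a + ‖a‖ • oneSeq) - ‖a‖ * tvP ν oneSeq) := by
          intro a
          have h1 : (-a + ‖-a‖ • oneSeq) + (a + ‖a‖ • oneSeq) = (2 * ‖a‖) • oneSeq := by
            rw [norm_neg]
            ext N
            show (- a N + ‖a‖ * 1) + (a N + ‖a‖ * 1) = (2 * ‖a‖) * 1
            ring
          have h3 := tvP_add ν (add_norm_nonneg (-a) _ le_rfl) (add_norm_nonneg a _ le_rfl)
          rw [h1, tvP_smul ν h2 _ (by positivity)] at h3
          rw [norm_neg] at h3 ⊢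
          linarith
        rcases le_total 0 c with hc | hc
        · exact hpos c a hc
        · have h1 := hpos (-c) (-a) (by linarith)
          rw [hneg, neg_smul_neg] at h1
          rw [h1]
          ring } (2 * ‖ν‖)
    (by
      intro g
      have h2 : ∀ N, (0 : ℝ) ≤ oneSeq N := fun N => by
          rw [oneSeq_apply]
          exact zero_le_one
      have h1 : ∀ h : ℕ →ᵇ ℝ, (∀ N, 0 ≤ h N) → tvP ν h ≤ ‖ν‖ * ‖h‖ := by
        intro h hh
        apply tvP_le ν hh
        intro g hg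
        refine (le_abs_self _).trans ((ν.le_opNorm g).trans ?_)
        exact mul_le_mul_of_nonneg_left (norm_le_of_abs_le hg) (norm_nonneg _)
      have h3 : ‖(oneSeq : ℕ →ᵇ ℝ)‖ ≤ 1 := by
        rw [BoundedContinuousFunction.norm_le zero_le_one]
        intro N
        rw [oneSeq_apply]
        simp
      have h4 : ‖g + ‖g‖ • oneSeq‖ ≤ 2 * ‖g‖ := by
        refine (norm_add_le _ _).trans ?_
        rw [norm_smul, norm_norm]
        have := mul_le_mul_of_nonneg_left h3 (norm_nonneg g)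
        linarith
      have h5 := h1 _ (add_norm_nonneg g _ le_rfl)
      have h6 := tvP_nonneg ν (add_norm_nonneg g _ le_rfl)
      have h7 := h1 oneSeq h2
      have h8 := tvP_nonneg ν h2
      have hν0 : 0 ≤ ‖ν‖ := norm_nonneg ν
      have h9 : ‖ν‖ * ‖g + ‖g‖ • oneSeq‖ ≤ ‖ν‖ * (2 * ‖g‖) :=
        mul_le_mul_of_nonneg_left h4 hν0
      have h10 : ‖g‖ * tvP ν oneSeq ≤ ‖g‖ * (‖ν‖ * 1) := by
        apply mul_le_mul_of_nonneg_left _ (norm_nonneg _)
        exact h7.trans (mul_le_mul_of_nonneg_left h3 hν0)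
      have h11 : 0 ≤ ‖g‖ * tvP ν oneSeq := mul_nonneg (norm_nonneg _) h8
      have h12 : 0 ≤ ‖ν‖ * ‖g‖ := by positivity
      show |tvP ν (g + ‖g‖ • oneSeq) - ‖g‖ * tvP ν oneSeq| ≤ 2 * ‖ν‖ * ‖g‖
      rw [abs_le]
      constructor <;> nlinarith)

theorem tv_eq {h : ℕ →ᵇ ℝ} (hh : ∀ N, 0 ≤ h N) : tv ν h = tvP ν h := by
  have h2 : ∀ N, (0 : ℝ) ≤ oneSeq N := fun N => by
    rw [oneSeq_apply]
    exact zero_le_one
  show tvP ν (h + ‖h‖ • oneSeq) - ‖h‖ * tvP ν oneSeq = _
  rw [tvP_add ν hh (fun N => by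
    show 0 ≤ ‖h‖ * 1
    have := norm_nonneg h
    linarith), tvP_smul ν h2 _ (norm_nonneg _)]
  ring

theorem tv_nonneg {h : ℕ →ᵇ ℝ} (hh : ∀ N, 0 ≤ h N) : 0 ≤ tv ν h := by
  rw [tv_eq ν hh]
  exact tvP_nonneg ν hh

theorem tv_mono {g h : ℕ →ᵇ ℝ} (hgh : ∀ N, g N ≤ h N) : tv ν g ≤ tv ν h := by
  have h1 := tv_nonneg ν (h := h - g) (fun N => by
    rw [BoundedContinuousFunction.coe_sub, Pi.sub_apply, sub_nonneg]
    exact hgh N)
  rw [map_sub, sub_nonneg] at h1
  exact h1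

theorem abs_le_tv {g h : ℕ →ᵇ ℝ} (hg : ∀ N, |g N| ≤ h N) : |ν g| ≤ tv ν h := by
  rw [tv_eq ν (fun N => (abs_nonneg _).trans (hg N))]
  exact abs_le_tvP ν hg

theorem tv_near {h : ℕ →ᵇ ℝ} (hh : ∀ N, 0 ≤ h N) (ε : ℝ) (hε : 0 < ε) :
    ∃ g : ℕ →ᵇ ℝ, (∀ N, |g N| ≤ h N) ∧ tv ν h - ε < ν g := by
  rw [tv_eq ν hh]
  exact tvP_near ν hh ε hε

theorem tv_one_le : tv ν oneSeq ≤ ‖ν‖ := by
  rw [tv_eq ν (fun N => zero_le_one)]
  apply tvP_le ν (fun N => zero_le_one)
  intro g hg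
  have h1 : ‖g‖ ≤ 1 := by
    rw [BoundedContinuousFunction.norm_le zero_le_one]
    exact hg
  refine (le_abs_self _).trans ((ν.le_opNorm g).trans ?_)
  have := mul_le_mul_of_nonneg_left h1 (norm_nonneg ν)
  linarith

theorem tv_fin (hν : ∀ g : ℕ →ᵇ ℝ, (∀ᶠ N in atTop, g N = 0) → ν g = 0) (g : ℕ →ᵇ ℝ)
    (hg : ∀ᶠ N in atTop, g N = 0) : tv ν g = 0 := by
  let a : ℕ →ᵇ ℝ := BoundedContinuousFunction.ofNormedAddCommGroupDiscrete
      (fun N => |g N|) ‖g‖ (fun N => by
        rw [Real.norm_eq_abs, abs_abs, ← Real.norm_eq_abs]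
        exact g.norm_coe_le_norm N)
  have ha : ∀ N, a N = |g N| := fun N => rfl
  have h1 : tv ν a ≤ 0 := by
    rw [tv_eq ν (fun N => abs_nonneg _)]
    apply tvP_le ν (fun N => abs_nonneg _)
    intro f hf
    apply le_of_eq
    apply hν
    filter_upwards [hg] with N hN
    have h2 := hf N
    rw [ha, hN, abs_zero] at h2
    exact abs_nonpos_iff.mp h2
  have h2 : tv ν g ≤ tv ν a := tv_mono ν (fun N => le_abs_self _)
  have h3 : tv ν (-g) ≤ tv ν a := tv_mono ν (fun N => by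
    rw [BoundedContinuousFunction.coe_neg, Pi.neg_apply]
    exact neg_le_abs _)
  rw [map_neg] at h3
  linarith

end tv

end Pool.Agent.LipPlane
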