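import Mathlib

set_option autoImplicit false
open Filter Topology
open scoped NNReal

namespace Pool.Agent.LipPlane

/-- The Euclidean plane. -/
abbrev Plane : Type := EuclideanSpace ℝ (Fin 2)

/-- `E` with the evaluation map `T` is the space `Lip_0(ℝ²)` (up to isometry): the four hypotheses
are word for word those of the frozen statement. -/
structure IsLipModel (E : Type) [NormedAddCommGroup E] [NormedSpace ℝ E]
    (T : E →ₗ[ℝ] (Plane → ℝ)) : Prop where
  zero : ∀ e : E, T e 0 = 0
  lip : ∀ e : E, LipschitzWith ‖e‖₊ (T e)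
  norm_le : ∀ (e : E) (K : NNReal), LipschitzWith K (T e) → ‖e‖₊ ≤ K
  surj : ∀ f : Plane → ℝ, f 0 = 0 → (∃ K : NNReal, LipschitzWith K f) → ∃ e : E, T e = f

/-- Integral of `f` against the finitely supported signed measure `m`. -/
noncomputable def pair (m : Plane →₀ ℝ) (f : Plane → ℝ) : ℝ := m.sum fun x a => a * f x

/-- The transportation (Wasserstein) norm of `m` is at most one (this forces total mass zero). -/
def UnitMeas (m : Plane →₀ ℝ) : Prop := ∀ f : Plane → ℝ, LipschitzWith 1 f → |pair m f| ≤ 1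

theorem pair_eq (m : Plane →₀ ℝ) (f : Plane → ℝ) : pair m f = ∑ x ∈ m.support, m x * f x := rfl

theorem pair_add (m : Plane →₀ ℝ) (f g : Plane → ℝ) :
    pair m (fun x => f x + g x) = pair m f + pair m g := by
  simp only [pair_eq, mul_add, Finset.sum_add_distrib]

theorem pair_mul (m : Plane →₀ ℝ) (c : ℝ) (f : Plane → ℝ) :
    pair m (fun x => c * f x) = c * pair m f := by
  simp only [pair_eq, Finset.mul_sum]
  exact Finset.sum_congr rfl fun x _ => by ring

theorem pair_congr (m : Plane →₀ ℝ) (f g : Plane → ℝ) (h : ∀ x ∈ m.support, f x = g x) :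
    pair m f = pair m g := by
  simp only [pair_eq]
  exact Finset.sum_congr rfl fun x hx => by rw [h x hx]

theorem abs_pair_le {m : Plane →₀ ℝ} (hm : UnitMeas m) {f : Plane → ℝ} {K : ℝ≥0}
    (hf : LipschitzWith K f) : |pair m f| ≤ K := by
  apply le_of_forall_pos_le_add
  intro ε hε
  have hK : (0 : ℝ) < (K : ℝ) + ε := by positivity
  have h1 : LipschitzWith 1 (fun x => ((K : ℝ) + ε)⁻¹ * f x) := by
    apply LipschitzWith.of_dist_le_mul
    intro x y
    have h2 := hf.dist_le_mul x y
    rw [Real.dist_eq] at h2 ⊢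
    rw [← mul_sub, abs_mul, abs_of_pos (inv_pos.mpr hK)]
    rw [NNReal.coe_one, one_mul, inv_mul_le_iff₀ hK]
    refine h2.trans ?_
    exact mul_le_mul_of_nonneg_right (by linarith) dist_nonneg
  have h3 := hm _ h1
  rw [pair_mul, abs_mul, abs_of_pos (inv_pos.mpr hK), inv_mul_le_iff₀ hK, mul_one] at h3
  exact h3

theorem pair_const {m : Plane →₀ ℝ} (hm : UnitMeas m) (c : ℝ) : pair m (fun _ => c) = 0 := by
  have h := abs_pair_le hm (LipschitzWith.const c : LipschitzWith 0 (fun _ : Plane => c))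
  simpa using h

theorem unitMeas_zero : UnitMeas 0 := by
  intro f _
  simp [pair]

/-- The functional `e ↦ ∫ (T e)(x + p) dm(x)`. -/
noncomputable def func {E : Type} [NormedAddCommGroup E] [NormedSpace ℝ E]
    {T : E →ₗ[ℝ] (Plane → ℝ)} (hT : IsLipModel E T) (m : Plane →₀ ℝ) (hm : UnitMeas m)
    (p : Plane) : E →L[ℝ] ℝ :=
  LinearMap.mkContinuous
    { toFun := fun e => pair m (fun x => T e (x + p))
      map_add' := by
        intro a b
        rw [← pair_add]
        simp [map_add]
      map_smul' := by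
        intro c a
        rw [RingHom.id_apply, smul_eq_mul, ← pair_mul]
        simp [map_smul] } 1
    (by
      intro e
      rw [one_mul]
      have h1 : LipschitzWith ‖e‖₊ (fun x => T e (x + p)) := by
        apply LipschitzWith.of_dist_le_mul
        intro x y
        have h2 := (hT.lip e).dist_le_mul (x + p) (y + p)
        rwa [dist_add_right] at h2
      exact abs_pair_le hm h1)

theorem func_apply {E : Type} [NormedAddCommGroup E] [NormedSpace ℝ E]
    {T : E →ₗ[ℝ] (Plane → ℝ)} (hT : IsLipModel E T) (m : Plane →₀ ℝ) (hm : UnitMeas m)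
    (p : Plane) (e : E) : func hT m hm p e = pair m (fun x => T e (x + p)) := rfl

theorem norm_func_le {E : Type} [NormedAddCommGroup E] [NormedSpace ℝ E]
    {T : E →ₗ[ℝ] (Plane → ℝ)} (hT : IsLipModel E T) (m : Plane →₀ ℝ) (hm : UnitMeas m)
    (p : Plane) : ‖func hT m hm p‖ ≤ 1 :=
  LinearMap.mkContinuous_norm_le _ zero_le_one _

/-- Ultrafilter limits of functionals of norm at most one. -/
theorem exists_ulim {E : Type} [NormedAddCommGroup E] [NormedSpace ℝ E] (U : Ultrafilter ℕ)
    (L : ℕ → (E →L[ℝ] ℝ)) (hb : ∀ n, ‖L n‖ ≤ 1) :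
    ∃ φ : E →L[ℝ] ℝ, ‖φ‖ ≤ 1 ∧ ∀ x, Tendsto (fun n => L n x) U (𝓝 (φ x)) := by
  have hbd : ∀ n x, |L n x| ≤ ‖x‖ := by
    intro n x
    have h1 := (L n).le_opNorm x
    have h2 : ‖L n‖ * ‖x‖ ≤ 1 * ‖x‖ := mul_le_mul_of_nonneg_right (hb n) (norm_nonneg _)
    rw [one_mul] at h2
    exact h1.trans h2
  have hex : ∀ x : E, ∃ l : ℝ, l ∈ Set.Icc (-‖x‖) ‖x‖ ∧ Tendsto (fun n => L n x) U (𝓝 l) := by
    intro x
    have hc : IsCompact (Set.Icc (-‖x‖) ‖x‖) := isCompact_Icc
    have h1 : ((U.map (fun n => L n x) : Ultrafilter ℝ) : Filter ℝ) ≤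
        𝓟 (Set.Icc (-‖x‖) ‖x‖) := by
      rw [le_principal_iff]
      have h2 : (fun n => L n x) ⁻¹' Set.Icc (-‖x‖) ‖x‖ ∈ (U : Filter ℕ) :=
        Filter.univ_mem' (fun n => abs_le.mp (hbd n x))
      exact h2
    obtain ⟨l, hl, hle⟩ := hc.ultrafilter_le_nhds _ h1
    exact ⟨l, hl, hle⟩
  choose l hl hlim using hex
  refine ⟨LinearMap.mkContinuous
    { toFun := l
      map_add' := by
        intro x y
        have h1 := (hlim x).add (hlim y)
        have h2 := hlim (x + y)
        have h3 : (fun n => L n (x + y)) = fun n => L n x + L n y := by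
          funext n; exact map_add _ _ _
        rw [h3] at h2
        exact tendsto_nhds_unique h2 h1
      map_smul' := by
        intro c x
        have h1 := (hlim x).const_mul c
        have h2 := hlim (c • x)
        have h3 : (fun n => L n (c • x)) = fun n => c * L n x := by
          funext n; rw [map_smul, smul_eq_mul]
        rw [h3] at h2
        exact tendsto_nhds_unique h2 h1 } 1
    (by
      intro x
      rw [one_mul]
      exact abs_le.mpr (hl x)), LinearMap.mkContinuous_norm_le _ zero_le_one _, hlim⟩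

/-- Gluing Lipschitz functions living on far apart balls. -/
theorem glue (p : ℕ → Plane) (R : ℕ → ℝ) (hR : ∀ n, 0 < R n)
    (hp : ∀ m n, m ≠ n → 2 * (R m + R n) ≤ dist (p m) (p n))
    (f : ℕ → Plane → ℝ) (hf : ∀ n, LipschitzWith 1 (f n)) :
    ∃ g : Plane → ℝ, LipschitzWith 1 g ∧ g 0 = 0 ∧
      ∃ c : ℕ → ℝ, ∀ n, ∀ x : Plane, ‖x‖ ≤ R n → g (x + p n) = f n x + c n := by
  classical
  have huniq : ∀ (y : Plane) (m n : ℕ), dist y (p m) ≤ R m → dist y (p n) ≤ R n → m = n := by
    intro y m n h1 h2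
    by_contra hne
    have h3 := hp m n hne
    have h4 : dist (p m) (p n) ≤ dist y (p m) + dist y (p n) := by
      rw [dist_comm y (p m)]
      exact dist_triangle _ _ _
    have := hR m
    have := hR n
    linarith
  let h : Plane → ℝ := fun y => if hy : ∃ n, dist y (p n) ≤ R n then
      f (Classical.choose hy) (y - p (Classical.choose hy)) - f (Classical.choose hy) 0 else 0
  have hh : ∀ (y : Plane) (n : ℕ), dist y (p n) ≤ R n → h y = f n (y - p n) - f n 0 := by
    intro y n hn
    have hy : ∃ n, dist y (p n) ≤ R n := ⟨n, hn⟩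
    have h1 : Classical.choose hy = n := huniq y _ _ (Classical.choose_spec hy) hn
    simp only [h, dif_pos hy, h1]
  have hbound : ∀ (y : Plane) (n : ℕ), dist y (p n) ≤ R n → |h y| ≤ R n := by
    intro y n hn
    rw [hh y n hn]
    have h1 := (hf n).dist_le_mul (y - p n) 0
    rw [Real.dist_eq, NNReal.coe_one, one_mul, dist_zero_right, ← dist_eq_norm] at h1
    exact h1.trans hn
  have hLip : LipschitzOnWith 1 h (⋃ n, {y : Plane | dist y (p n) ≤ R n}) := by
    apply LipschitzOnWith.of_dist_le_mul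
    intro x hx y hy
    rw [Set.mem_iUnion] at hx hy
    obtain ⟨m, hm⟩ := hx
    obtain ⟨n, hn⟩ := hy
    simp only [Set.mem_ofPred_eq] at hm hn
    rw [NNReal.coe_one, one_mul]
    by_cases hmn : m = n
    · subst hmn
      rw [hh x m hm, hh y m hn, Real.dist_eq]
      have h1 := (hf m).dist_le_mul (x - p m) (y - p m)
      rw [Real.dist_eq, NNReal.coe_one, one_mul, dist_sub_right] at h1
      have h2 : f m (x - p m) - f m 0 - (f m (y - p m) - f m 0) = f m (x - p m) - f m (y - p m) := by
        ring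
      rw [h2]
      exact h1
    · have h1 := hbound x m hm
      have h2 := hbound y n hn
      have h3 := hp m n hmn
      have h4 : dist (p m) (p n) ≤ dist x (p m) + dist x y + dist y (p n) := by
        calc dist (p m) (p n) ≤ dist (p m) x + dist x (p n) := dist_triangle _ _ _
          _ ≤ dist (p m) x + (dist x y + dist y (p n)) := by
              gcongr
              exact dist_triangle _ _ _
          _ = dist x (p m) + dist x y + dist y (p n) := by rw [dist_comm (p m) x]; ring
      have h5 : |h x - h y| ≤ |h x| + |h y| := abs_sub _ _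
      rw [Real.dist_eq]
      linarith
  obtain ⟨g, hg, heq⟩ := hLip.extend_real
  refine ⟨fun y => g y - g 0, ?_, sub_self _, fun n => - f n 0 - g 0, ?_⟩
  · apply LipschitzWith.of_dist_le_mul
    intro x y
    have h1 := hg.dist_le_mul x y
    rw [Real.dist_eq] at h1 ⊢
    rw [sub_sub_sub_cancel_right]
    exact h1
  · intro n x hx
    have h1 : dist (x + p n) (p n) ≤ R n := by
      rw [dist_eq_norm, add_sub_cancel_right]
      exact hx
    have h2 : x + p n ∈ ⋃ n, {y : Plane | dist y (p n) ≤ R n} :=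
      Set.mem_iUnion.mpr ⟨n, h1⟩
    have h3 := heq h2
    rw [hh _ n h1, add_sub_cancel_right] at h3
    show g (x + p n) - g 0 = _
    rw [← h3]
    ring

/-- Far apart centres for given radii. -/
theorem exists_centres (R : ℕ → ℝ) (hR : ∀ n, 0 < R n) :
    ∃ p : ℕ → Plane, ∀ m n, m ≠ n → 2 * (R m + R n) ≤ dist (p m) (p n) := by
  let t : ℕ → ℝ := fun n => 4 * (∑ i ∈ Finset.range n, R i) + 2 * R n
  have key : ∀ m n, m < n → 2 * (R m + R n) ≤ t n - t m := by
    intro m n hmn
    have h1 : (∑ i ∈ Finset.range n, R i) = (∑ i ∈ Finset.range m, R i) +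
        ∑ i ∈ Finset.Ico m n, R i := (Finset.sum_range_add_sum_Ico _ hmn.le).symm
    have h2 : R m ≤ ∑ i ∈ Finset.Ico m n, R i :=
      Finset.single_le_sum (fun i _ => (hR i).le) (Finset.mem_Ico.mpr ⟨le_rfl, hmn⟩)
    simp only [t]
    rw [h1]
    linarith
  refine ⟨fun n => EuclideanSpace.single 0 (t n), ?_⟩
  intro m n hmn
  have h1 : dist (EuclideanSpace.single (0 : Fin 2) (t m) : Plane) (EuclideanSpace.single 0 (t n)) =
      |t m - t n| := by
    rw [PiLp.dist_single_same, Real.dist_eq]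
  rw [h1]
  rcases lt_or_gt_of_ne hmn with h | h
  · have h2 := key m n h
    rw [abs_sub_comm]
    exact h2.trans (le_abs_self _)
  · have h2 := key n m h
    have h3 := le_abs_self (t m - t n)
    linarith

/-- Mazur: weak convergence gives norm approximation by convex combinations of late terms. -/
theorem mazur {F : Type} [NormedAddCommGroup F] [NormedSpace ℝ F] (φ : ℕ → F) (φ' : F)
    (h : ∀ ψ : F →L[ℝ] ℝ, Tendsto (fun n => ψ (φ n)) atTop (𝓝 (ψ φ'))) (m : ℕ) (η : ℝ)
    (hη : 0 < η) :
    ∃ (L : ℕ) (a : ℕ → ℝ), m ≤ L ∧ (∀ k, 0 ≤ a k) ∧ (∑ k ∈ Finset.Ico m L, a k = 1) ∧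
      ‖(∑ k ∈ Finset.Ico m L, a k • φ k) - φ'‖ < η := by
  let S : Set F := {x | ∃ (L : ℕ) (a : ℕ → ℝ), (∀ k, 0 ≤ a k) ∧ (∀ k, L ≤ k → a k = 0) ∧
    (∑ k ∈ Finset.Ico m L, a k = 1) ∧ x = ∑ k ∈ Finset.Ico m L, a k • φ k}
  have hext : ∀ (L L' : ℕ) (a : ℕ → ℝ), L ≤ L' → (∀ k, L ≤ k → a k = 0) →
      (∑ k ∈ Finset.Ico m L', a k = ∑ k ∈ Finset.Ico m L, a k) ∧
      (∑ k ∈ Finset.Ico m L', a k • φ k = ∑ k ∈ Finset.Ico m L, a k • φ k) := by
    intro L L' a hL ha
    have hsub : Finset.Ico m L ⊆ Finset.Ico m L' := Finset.Ico_subset_Ico le_rfl hL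
    constructor
    · symm
      apply Finset.sum_subset hsub
      intro k hk hk2
      apply ha
      rw [Finset.mem_Ico] at hk hk2
      omega
    · symm
      apply Finset.sum_subset hsub
      intro k hk hk2
      rw [ha k, zero_smul]
      rw [Finset.mem_Ico] at hk hk2
      omega
  have hconv : Convex ℝ S := by
    rintro x ⟨L1, a, ha0, haz, ha1, rfl⟩ y ⟨L2, b, hb0, hbz, hb1, rfl⟩ s t hs ht hst
    refine ⟨max L1 L2, fun k => s * a k + t * b k, ?_, ?_, ?_, ?_⟩
    · intro k
      have := ha0 k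
      have := hb0 k
      positivity
    · intro k hk
      show s * a k + t * b k = 0
      rw [haz k (le_trans (le_max_left _ _) hk), hbz k (le_trans (le_max_right _ _) hk)]
      ring
    · rw [Finset.sum_add_distrib, ← Finset.mul_sum, ← Finset.mul_sum,
        (hext L1 _ a (le_max_left _ _) haz).1, (hext L2 _ b (le_max_right _ _) hbz).1, ha1, hb1,
        mul_one, mul_one, hst]
    · rw [← (hext L1 _ a (le_max_left _ _) haz).2, ← (hext L2 _ b (le_max_right _ _) hbz).2,
        Finset.smul_sum, Finset.smul_sum, ← Finset.sum_add_distrib]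
      apply Finset.sum_congr rfl
      intro k _
      rw [add_smul, mul_smul, mul_smul]
  have hmemS : ∀ k, m ≤ k → φ k ∈ S := by
    intro k hk
    refine ⟨k + 1, fun j => if j = k then 1 else 0, ?_, ?_, ?_, ?_⟩
    · intro j
      dsimp only
      split_ifs <;> norm_num
    · intro j hj
      dsimp only
      rw [if_neg (by omega)]
    · rw [Finset.sum_ite_eq']
      rw [if_pos (Finset.mem_Ico.mpr ⟨hk, by omega⟩)]
    · rw [Finset.sum_eq_single k]
      · simp
      · intro j _ hj
        show (if j = k then (1 : ℝ) else 0) • φ j = 0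
        rw [if_neg hj, zero_smul]
      · intro hk2
        exact absurd (Finset.mem_Ico.mpr ⟨hk, by omega⟩) hk2
  have hcl : φ' ∈ closure S := by
    by_contra hnot
    obtain ⟨ψ, u, h1, h2⟩ := geometric_hahn_banach_closed_point hconv.closure isClosed_closure hnot
    have h3 : ∀ᶠ n in atTop, ψ (φ n) ≤ u := by
      filter_upwards [eventually_ge_atTop m] with n hn
      exact (h1 _ (subset_closure (hmemS n hn))).le
    have h4 := le_of_tendsto (h ψ) h3
    linarith
  obtain ⟨x, hx, hdist⟩ := Metric.mem_closure_iff.mp hcl η hη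
  obtain ⟨L, a, ha0, haz, ha1, rfl⟩ := hx
  refine ⟨max L m, a, le_max_right _ _, ha0, ?_, ?_⟩
  · rw [(hext L _ a (le_max_left _ _) haz).1, ha1]
  · rw [(hext L _ a (le_max_left _ _) haz).2, ← dist_eq_norm, dist_comm]
    exact hdist

end Pool.Agent.LipPlane
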